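import Mathlib

set_option autoImplicit false

/-!
# MP_cab741_co: chordal graphs with clique number at most three

Every finite chordal graph with clique number at most 3 is proper conflict-free
(degree+2)-choosable.
-/

namespace Pool.Agent.Results.MP_cab741_co.ChordalCliqueThree

/-- `φ` is a proper conflict-free `L`-colouring of `G`: colours come from the lists, adjacent
vertices have different colours, and for every vertex `v` with at least one neighbour some colour
is used by exactly one neighbour of `v`. -/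
def IsPCFListColouring {V C : Type*} (G : SimpleGraph V) (L : V → Finset C) (φ : V → C) : Prop :=
  (∀ v, φ v ∈ L v) ∧ (∀ u v, G.Adj u v → φ u ≠ φ v) ∧
    ∀ v, (∃ u, G.Adj v u) → ∃ c, ∃! u, G.Adj v u ∧ φ u = c

/-- A graph is chordal if it has a perfect elimination ordering: an injective numbering `σ` of its
vertices such that the neighbours of a vertex with larger numbers are pairwise adjacent. -/
def IsChordal {V : Type*} (G : SimpleGraph V) : Prop :=
  ∃ σ : V → ℕ, Function.Injective σ ∧
    ∀ a c d, σ a < σ c → σ a < σ d → c ≠ d → G.Adj a c → G.Adj a d → G.Adj c d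

/-- Greedy list colouring with forbidden colours that depend on the colours chosen before. -/
theorem greedy {V C : Type*} [Finite V] (φ₀ : V → C) (r : V → ℕ) (L : V → Finset C)
    (X : V → (V → C) → Finset C)
    (hloc : ∀ w φ ψ, (∀ v, r v < r w → φ v = ψ v) → X w φ = X w ψ)
    (hex : ∀ w φ, (∀ v, r v < r w → φ v ∈ L v ∧ φ v ∉ X v φ) → ∃ c, c ∈ L w ∧ c ∉ X w φ) :
    ∃ φ : V → C, ∀ w, φ w ∈ L w ∧ φ w ∉ X w φ := by
  classical
  have key : ∀ n : ℕ, ∃ φ : V → C, ∀ w, r w < n → φ w ∈ L w ∧ φ w ∉ X w φ := by
    intro n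
    induction n with
    | zero => exact ⟨φ₀, fun w hw => absurd hw (Nat.not_lt_zero _)⟩
    | succ n ih =>
      obtain ⟨φ, hφ⟩ := ih
      have hch : ∀ w, ∃ c, r w = n → c ∈ L w ∧ c ∉ X w φ := by
        intro w
        by_cases h : r w = n
        · obtain ⟨c, hc⟩ := hex w φ (fun v hv => hφ v (by omega))
          exact ⟨c, fun _ => hc⟩
        · exact ⟨φ₀ w, fun h' => absurd h' h⟩
      choose g hg using hch
      have hagree : ∀ v, r v < n → (if r v = n then g v else φ v) = φ v := fun v hv => by
        rw [if_neg (by omega)]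
      refine ⟨fun w => if r w = n then g w else φ w, fun w hw => ?_⟩
      have hX : X w (fun w => if r w = n then g w else φ w) = X w φ :=
        hloc w _ _ (fun v hv => hagree v (by omega))
      rw [hX]
      by_cases h : r w = n
      · simpa [h] using hg w h
      · simpa [h] using hφ w (by omega)
  cases nonempty_fintype V
  obtain ⟨φ, hφ⟩ := key ((Finset.univ.sup r) + 1)
  exact ⟨φ, fun w => hφ w (Nat.lt_succ_of_le (Finset.le_sup (Finset.mem_univ w)))⟩

/-- **Chordal graphs with clique number at most three are proper conflict-free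
(degree+2)-choosable.** -/
theorem result {V C : Type} [Fintype V] [DecidableEq V] (G : SimpleGraph V)
    [DecidableRel G.Adj] (hG : IsChordal G) (hω : G.cliqueNum ≤ 3) (L : V → Finset C)
    (hL : ∀ v, G.degree v + 2 ≤ (L v).card) :
    ∃ φ : V → C, IsPCFListColouring G L φ := by
  classical
  obtain ⟨r, hr, h1⟩ : ∃ r : V → ℕ, Function.Injective r ∧
      ∀ a c d, r c < r a → r d < r a → c ≠ d → G.Adj a c → G.Adj a d → G.Adj c d := by
    obtain ⟨σ, hσ, h1⟩ := hG
    obtain ⟨N, hN⟩ : ∃ N, ∀ v, σ v ≤ N := ⟨Finset.univ.sup σ, fun v =>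
      Finset.le_sup (Finset.mem_univ v)⟩
    refine ⟨fun v => N - σ v, fun a b h => hσ ?_, fun a c d hc hd => h1 a c d ?_ ?_⟩
    · have := hN a; have := hN b; simp only at h; omega
    · have := hN a; have := hN c; simp only at hc; omega
    · have := hN a; have := hN d; simp only at hd; omega
  -- earlier coloured neighbours and later coloured neighbours
  let Q : V → Finset V := fun w => Finset.univ.filter (fun q => G.Adj w q ∧ r q < r w)
  have hQ : ∀ w q, q ∈ Q w ↔ G.Adj w q ∧ r q < r w := fun w q => by simp [Q]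
  let F : V → Finset V := fun w => Finset.univ.filter (fun q => G.Adj w q ∧ r w < r q)
  have hF : ∀ w q, q ∈ F w ↔ G.Adj w q ∧ r w < r q := fun w q => by simp [F]
  have htri : ∀ a b : V, a ≠ b → r a < r b ∨ r b < r a := fun a b h =>
    lt_or_gt_of_ne (fun h' => h (hr h'))
  have hQclq : ∀ w q q', q ∈ Q w → q' ∈ Q w → q ≠ q' → G.Adj q q' := by
    intro w q q' hq hq' hne
    rw [hQ] at hq hq'
    exact h1 w q q' hq.2 hq'.2 hne hq.1 hq'.1
  have hdeg : ∀ w, G.degree w = (Q w).card + (F w).card := by
    intro w
    rw [← G.card_neighborFinset_eq_degree w, ← Finset.card_union_of_disjoint]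
    · congr 1
      ext q
      rw [SimpleGraph.mem_neighborFinset, Finset.mem_union, hQ, hF]
      constructor
      · intro h
        rcases htri q w h.ne.symm with h' | h'
        · exact Or.inl ⟨h, h'⟩
        · exact Or.inr ⟨h, h'⟩
      · rintro (h | h)
        · exact h.1
        · exact h.1
    · rw [Finset.disjoint_left]
      intro q h h'
      have h2 := ((hQ w q).1 h).2
      have h3 := ((hF w q).1 h').2
      omega
  have hQ2 : ∀ w, (Q w).card ≤ 2 := by
    intro w
    have hw : w ∉ Q w := fun h => absurd ((hQ w w).1 h).2 (lt_irrefl _)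
    have hcl : G.IsClique (insert w (Q w) : Finset V) := by
      intro x hx y hy hxy
      rw [Finset.mem_coe, Finset.mem_insert] at hx hy
      rcases hx with rfl | hx
      · rcases hy with rfl | hy
        · exact absurd rfl hxy
        · exact ((hQ _ y).1 hy).1
      · rcases hy with rfl | hy
        · exact ((hQ _ x).1 hx).1.symm
        · exact hQclq w x y hx hy hxy
    have := hcl.card_le_cliqueNum
    rw [Finset.card_insert_of_notMem hw] at this
    omega
  -- children: `w` is the last coloured vertex of `Q u`, and `Q u` has two elements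
  let IsCh : V → V → Prop := fun w u => w ∈ Q u ∧ (Q u).card = 2 ∧ ∀ q ∈ Q u, r q ≤ r w
  -- witnesses
  have hf : ∀ y, ∃ z, (∃ u, G.Adj y u) → G.Adj y z ∧
      ((Q y).Nonempty → z ∈ Q y ∧ ((∃ u, IsCh y u) → ∃ u, IsCh y u ∧ z ∈ Q u)) ∧
      (¬ (Q y).Nonempty → ∀ u, G.Adj y u → u ≠ z → r z < r u) := by
    intro y
    by_cases hy : ∃ u, G.Adj y u
    swap
    · exact ⟨y, fun h => absurd h hy⟩
    by_cases hne : (Q y).Nonempty
    · by_cases hch : ∃ u, IsCh y u
      · obtain ⟨u, hu⟩ := hch
        obtain ⟨z, hz, hzy⟩ : ∃ z ∈ Q u, z ≠ y :=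
          Finset.exists_mem_ne (by rw [hu.2.1]; norm_num) y
        have hadj : G.Adj y z := hQclq u y z hu.1 hz hzy.symm
        have hlt : r z < r y := lt_of_le_of_ne (hu.2.2 z hz) (fun h => hzy (hr h))
        exact ⟨z, fun _ => ⟨hadj, fun _ => ⟨(hQ y z).2 ⟨hadj, hlt⟩, fun _ => ⟨u, hu, hz⟩⟩,
          fun h => absurd hne h⟩⟩
      · obtain ⟨z, hz⟩ := hne
        exact ⟨z, fun _ => ⟨((hQ y z).1 hz).1, fun _ => ⟨hz, fun h => absurd h hch⟩,
          fun h => absurd ⟨z, hz⟩ h⟩⟩
    · let N : Finset V := Finset.univ.filter (fun u => G.Adj y u)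
      have hN : ∀ u, u ∈ N ↔ G.Adj y u := fun u => by simp [N]
      obtain ⟨u0, hu0⟩ := hy
      obtain ⟨z, hz, hmin⟩ := N.exists_min_image r ⟨u0, (hN u0).2 hu0⟩
      refine ⟨z, fun _ => ⟨(hN z).1 hz, fun h => absurd h hne, fun _ u hu huz => ?_⟩⟩
      exact lt_of_le_of_ne (hmin u ((hN u).2 hu)) (fun h => huz (hr h).symm)
  choose f hf using hf
  have hfadj : ∀ w q, q ∈ Q w → (∃ u, G.Adj q u) := fun w q hq => ⟨w, ((hQ w q).1 hq).1.symm⟩
  -- static constraints
  let D : V → Finset V := fun w => (Q w ∪ (Q w).image f).filter (fun d => r d < r w)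
  have hD : ∀ w d, d ∈ D w ↔ (d ∈ Q w ∨ ∃ q ∈ Q w, f q = d) ∧ r d < r w := fun w d => by
    simp [D]
  have hDcard : ∀ w, (D w).card ≤ (Q w).card + (Q w).card := fun w =>
    (Finset.card_filter_le _ _).trans ((Finset.card_union_le _ _).trans
      (Nat.add_le_add_left Finset.card_image_le _))
  -- reservations
  let Res : V → Finset V := fun w => Finset.univ.filter
    (fun u => IsCh w u ∧ (F u).card = 0 ∧ f w ∉ Q u)
  have hRes : ∀ w u, u ∈ Res w ↔ IsCh w u ∧ (F u).card = 0 ∧ f w ∉ Q u := fun w u => by
    simp [Res]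
  let B : V → V → (V → C) → Finset C := fun w u φ =>
    L u \ ((D u).filter (fun d => r d < r w)).image φ
  let T : V → V → (V → C) → Finset C := fun w u φ => if (B w u φ).card = 1 then B w u φ else ∅
  have hT : ∀ w u φ, (T w u φ).card ≤ 1 := fun w u φ => by
    by_cases h : (B w u φ).card = 1
    · simp only [T, if_pos h]; omega
    · simp only [T, if_neg h]; simp
  let X : V → (V → C) → Finset C := fun w φ => (D w).image φ ∪ (Res w).biUnion (fun u => T w u φ)
  have hXcard : ∀ w φ, (X w φ).card ≤ (D w).card + (Res w).card := by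
    intro w φ
    refine (Finset.card_union_le _ _).trans (Nat.add_le_add Finset.card_image_le ?_)
    refine Finset.card_biUnion_le.trans ?_
    calc ∑ u ∈ Res w, (T w u φ).card ≤ ∑ u ∈ Res w, 1 := Finset.sum_le_sum (fun u _ => hT w u φ)
      _ = (Res w).card := by simp
  have hloc : ∀ w φ ψ, (∀ v, r v < r w → φ v = ψ v) → X w φ = X w ψ := by
    intro w φ ψ h
    have e1 : (D w).image φ = (D w).image ψ :=
      Finset.image_congr (fun d hd => h d ((hD w d).1 hd).2)
    have e2 : ∀ u, B w u φ = B w u ψ := by
      intro u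
      have : ((D u).filter (fun d => r d < r w)).image φ =
          ((D u).filter (fun d => r d < r w)).image ψ :=
        Finset.image_congr (fun d hd => h d (Finset.mem_filter.1 hd).2)
      simp only [B, this]
    have e3 : ∀ u, T w u φ = T w u ψ := fun u => by simp only [T, e2]
    simp only [X, e1, e3]
  -- structure of children
  have hchQ : ∀ w u, IsCh w u → ∀ q ∈ Q u, q ≠ w → q ∈ Q w := by
    intro w u hu q hq hqw
    exact (hQ w q).2 ⟨hQclq u w q hu.1 hq hqw.symm,
      lt_of_le_of_ne (hu.2.2 q hq) (fun h => hqw (hr h))⟩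
  have hchother : ∀ w u, IsCh w u → ∃ q ∈ Q u, q ≠ w := fun w u hu =>
    Finset.exists_mem_ne (by rw [hu.2.1]; norm_num) w
  have hResF : ∀ w, (Res w).Nonempty → (Res w).card + 1 ≤ (F w).card := by
    intro w hne
    obtain ⟨u, hu⟩ := hne
    have hch := ((hRes w u).1 hu).1
    obtain ⟨q, hq, hqw⟩ := hchother w u hch
    have hqQ := hchQ w u hch q hq hqw
    obtain ⟨u0, hu0, hz⟩ := ((hf w ⟨q, ((hQ w q).1 hqQ).1⟩).2.1 ⟨q, hqQ⟩).2 ⟨u, hch⟩
    have hu0R : u0 ∉ Res w := fun h => ((hRes w u0).1 h).2.2 hz
    rw [← Finset.card_insert_of_notMem hu0R]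
    apply Finset.card_le_card
    have hmem : ∀ v, IsCh w v → v ∈ F w := fun v hv =>
      (hF w v).2 ⟨((hQ v w).1 hv.1).1.symm, ((hQ v w).1 hv.1).2⟩
    intro v hv
    rcases Finset.mem_insert.1 hv with rfl | hv
    · exact hmem _ hu0
    · exact hmem v ((hRes w v).1 hv).1
  have hex : ∀ w φ, (∀ v, r v < r w → φ v ∈ L v ∧ φ v ∉ X v φ) →
      ∃ c, c ∈ L w ∧ c ∉ X w φ := by
    intro w φ hprev
    have hLw := hL w
    rw [hdeg w] at hLw
    have hle := hXcard w φ
    have hDc := hDcard w
    have h2 := hQ2 w
    have finish : (X w φ).card < (L w).card → ∃ c, c ∈ L w ∧ c ∉ X w φ := fun h =>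
      Finset.exists_mem_notMem_of_card_lt_card h
    by_cases hRn : (Res w).Nonempty
    · have := hResF w hRn
      exact finish (by omega)
    · have hR0 : Res w = ∅ := Finset.not_nonempty_iff_eq_empty.1 hRn
      rw [hR0, Finset.card_empty] at hle
      by_cases hF0 : (F w).card = 0
      swap
      · exact finish (by omega)
      by_cases hQc : (Q w).card = 2
      swap
      · exact finish (by omega)
      -- a leaf with two earlier neighbours
      obtain ⟨m, hm, hmax⟩ := (Q w).exists_max_image r (Finset.card_pos.1 (by omega))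
      have hch : IsCh m w := ⟨hm, hQc, hmax⟩
      obtain ⟨q, hq, hqm⟩ := hchother m w hch
      have hqQ := hchQ m w hch q hq hqm
      have hQw : Q w = {m, q} := by
        symm
        apply Finset.eq_of_subset_of_card_le
        · intro x hx
          rcases Finset.mem_insert.1 hx with rfl | hx
          · exact hm
          · rw [Finset.mem_singleton.1 hx]; exact hq
        · rw [hQc, Finset.card_pair hqm.symm]
      have hXw : X w φ = (D w).image φ := by simp only [X, hR0, Finset.biUnion_empty,
        Finset.union_empty]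
      have hfm := (hf m ⟨q, ((hQ m q).1 hqQ).1⟩).2.1 ⟨q, hqQ⟩
      by_cases hfmQ : f m ∈ Q w
      · -- at most three constraints
        have hsub : D w ⊆ {m, q, f q} := by
          intro d hd
          rcases ((hD w d).1 hd).1 with h | ⟨x, hx, rfl⟩
          · rw [hQw] at h
            rcases Finset.mem_insert.1 h with rfl | h
            · simp
            · rw [Finset.mem_singleton.1 h]; simp
          · rw [hQw] at hx hfmQ
            rcases Finset.mem_insert.1 hx with rfl | hx
            · rcases Finset.mem_insert.1 hfmQ with h | h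
              · rw [h]; simp
              · rw [Finset.mem_singleton.1 h]; simp
            · rw [Finset.mem_singleton.1 hx]; simp
        have h3 : (D w).card ≤ 3 := (Finset.card_le_card hsub).trans Finset.card_le_three
        exact finish (by omega)
      · have hwR : w ∈ Res m := (hRes m w).2 ⟨hch, hF0, hfmQ⟩
        obtain ⟨hm1, hm2⟩ := (hQ w m).1 hm
        -- all constraints of `w` other than `m` are coloured before `m`
        have hsub : D w ⊆ insert m ((D w).filter (fun d => r d < r m)) := by
          intro d hd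
          rw [Finset.mem_insert]
          by_cases hdm : d = m
          · exact Or.inl hdm
          · right
            refine Finset.mem_filter.2 ⟨hd, ?_⟩
            rcases ((hD w d).1 hd).1 with h | ⟨x, hx, rfl⟩
            · exact ((hQ m d).1 (hchQ m w hch d h hdm)).2
            · by_cases hxm : x = m
              · rw [hxm]; exact ((hQ m (f m)).1 hfm.1).2
              · have hxQ := (hQ m x).1 (hchQ m w hch x hx hxm)
                have hfx := hf x ⟨m, hxQ.1.symm⟩
                by_cases hQx : (Q x).Nonempty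
                · exact lt_trans ((hQ x (f x)).1 (hfx.2.1 hQx).1).2 hxQ.2
                · exact hfx.2.2 hQx m hxQ.1.symm (fun h => hdm h.symm)
        have hcardf : ((D w).filter (fun d => r d < r m)).card ≤ 3 := by
          have hs : (D w).filter (fun d => r d < r m) ⊆ {q, f m, f q} := by
            intro d hd
            obtain ⟨hd1, hd2⟩ := Finset.mem_filter.1 hd
            rcases ((hD w d).1 hd1).1 with h | ⟨x, hx, rfl⟩
            · rw [hQw] at h
              rcases Finset.mem_insert.1 h with rfl | h
              · exact absurd hd2 (lt_irrefl _)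
              · rw [Finset.mem_singleton.1 h]; simp
            · rw [hQw] at hx
              rcases Finset.mem_insert.1 hx with rfl | hx
              · simp
              · rw [Finset.mem_singleton.1 hx]; simp
          exact (Finset.card_le_card hs).trans Finset.card_le_three
        have hBcard : 1 ≤ (B m w φ).card := by
          have h4 := Finset.le_card_sdiff (((D w).filter (fun d => r d < r m)).image φ) (L w)
          have h5 : (((D w).filter (fun d => r d < r m)).image φ).card ≤ 3 :=
            Finset.card_image_le.trans hcardf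
          show 1 ≤ (L w \ ((D w).filter (fun d => r d < r m)).image φ).card
          omega
        have hgoal : ∃ c ∈ B m w φ, c ≠ φ m := by
          by_cases hB1 : (B m w φ).card = 1
          · obtain ⟨c, hc⟩ := Finset.card_pos.1 (show 0 < (B m w φ).card by omega)
            refine ⟨c, hc, fun h => ?_⟩
            have hφm := (hprev m hm2).2
            apply hφm
            refine Finset.mem_union_right _ (Finset.mem_biUnion.2 ⟨w, hwR, ?_⟩)
            show φ m ∈ (if (B m w φ).card = 1 then B m w φ else ∅)
            rw [if_pos hB1, ← h]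
            exact hc
          · exact Finset.exists_mem_ne (by omega) (φ m)
        obtain ⟨c, hc, hcm⟩ := hgoal
        have hcL := Finset.mem_sdiff.1 (show c ∈ L w \ ((D w).filter
          (fun d => r d < r m)).image φ from hc)
        refine ⟨c, hcL.1, ?_⟩
        rw [hXw]
        intro h
        obtain ⟨d, hd, hdc⟩ := Finset.mem_image.1 h
        rcases Finset.mem_insert.1 (hsub hd) with h' | h'
        · exact hcm (by rw [← hdc, h'])
        · exact hcL.2 (Finset.mem_image.2 ⟨d, h', hdc⟩)
  obtain ⟨φ, hφ⟩ := greedy (fun v => (Finset.card_pos.1 (show 0 < (L v).card by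
    have := hL v; omega)).choose) r L X hloc hex
  have havoid : ∀ u d, d ∈ D u → φ u ≠ φ d := fun u d hd h =>
    (hφ u).2 (Finset.mem_union_left _ (Finset.mem_image.2 ⟨d, hd, h.symm⟩))
  have hproper : ∀ u v, G.Adj u v → φ u ≠ φ v := by
    intro u v huv
    rcases htri u v huv.ne with h | h
    · exact (havoid v u ((hD v u).2 ⟨Or.inl ((hQ v u).2 ⟨huv.symm, h⟩), h⟩)).symm
    · exact havoid u v ((hD u v).2 ⟨Or.inl ((hQ u v).2 ⟨huv, h⟩), h⟩)
  refine ⟨φ, fun v => (hφ v).1, hproper, ?_⟩
  intro x hx
  obtain ⟨hxz, hz1, hz2⟩ := hf x hx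
  refine ⟨φ (f x), f x, ⟨hxz, rfl⟩, ?_⟩
  rintro u ⟨hxu, hu⟩
  by_contra hne
  by_cases hQx : (Q x).Nonempty
  · have hzQ := (hz1 hQx).1
    rcases htri u x hxu.ne.symm with h | h
    · exact hproper u (f x) (hQclq x u (f x) ((hQ x u).2 ⟨hxu, h⟩) hzQ hne) hu
    · have hxQ : x ∈ Q u := (hQ u x).2 ⟨hxu.symm, h⟩
      exact havoid u (f x) ((hD u (f x)).2 ⟨Or.inr ⟨x, hxQ, rfl⟩,
        lt_trans ((hQ x (f x)).1 hzQ).2 h⟩) hu
  · have hlt := hz2 hQx u hxu hne
    have h : r x < r u := by
      rcases htri u x hxu.ne.symm with h | h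
      · exact absurd ⟨u, (hQ x u).2 ⟨hxu, h⟩⟩ hQx
      · exact h
    have hxQ : x ∈ Q u := (hQ u x).2 ⟨hxu.symm, h⟩
    exact havoid u (f x) ((hD u (f x)).2 ⟨Or.inr ⟨x, hxQ, rfl⟩, hlt⟩) hu

end Pool.Agent.Results.MP_cab741_co.ChordalCliqueThree
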