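import Mathlib

set_option autoImplicit false

/-!
# MP_cab741_co: graphs with a dominating edge

Every finite graph with an edge `a b` such that every vertex is adjacent to `a` or to `b` is proper
conflict-free (degree+2)-choosable.
-/

namespace Pool.Agent.Results.MP_cab741_co.DominatingEdge

/-- `φ` is a proper conflict-free `L`-colouring of `G`: colours come from the lists, adjacent
vertices have different colours, and for every vertex `v` with at least one neighbour some colour
is used by exactly one neighbour of `v`. -/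
def IsPCFListColouring {V C : Type*} (G : SimpleGraph V) (L : V → Finset C) (φ : V → C) : Prop :=
  (∀ v, φ v ∈ L v) ∧ (∀ u v, G.Adj u v → φ u ≠ φ v) ∧
    ∀ v, (∃ u, G.Adj v u) → ∃ c, ∃! u, G.Adj v u ∧ φ u = c

/-- Greedy list colouring: if every vertex has to avoid the colours of fewer earlier vertices than
its list has colours, there is a colouring. -/
theorem greedy {V C : Type*} [Finite V] (r : V → ℕ) (D : V → Finset V) (L : V → Finset C)
    (hD : ∀ w, ∀ d ∈ D w, r d < r w) (hL : ∀ w, (D w).card < (L w).card) :
    ∃ φ : V → C, ∀ w, φ w ∈ L w ∧ ∀ d ∈ D w, φ w ≠ φ d := by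
  classical
  have key : ∀ n : ℕ, ∃ φ : V → C, ∀ w, r w < n → φ w ∈ L w ∧ ∀ d ∈ D w, φ w ≠ φ d := by
    intro n
    induction n with
    | zero =>
      refine ⟨fun w => (Finset.card_pos.1 (lt_of_le_of_lt (Nat.zero_le _) (hL w))).choose, ?_⟩
      intro w hw
      exact absurd hw (Nat.not_lt_zero _)
    | succ n ih =>
      obtain ⟨φ, hφ⟩ := ih
      have hch : ∀ w, ∃ c, c ∈ L w ∧ ∀ d ∈ D w, c ≠ φ d := by
        intro w
        have h1 : ((D w).image φ).card < (L w).card :=
          lt_of_le_of_lt Finset.card_image_le (hL w)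
        obtain ⟨c, hc, hc'⟩ := Finset.exists_mem_notMem_of_card_lt_card h1
        refine ⟨c, hc, fun d hd h => hc' ?_⟩
        rw [h]
        exact Finset.mem_image_of_mem φ hd
      choose g hg hg' using hch
      refine ⟨fun w => if r w = n then g w else φ w, fun w hw => ?_⟩
      have hd : ∀ d ∈ D w, r d ≠ n := fun d hd => by
        have := hD w d hd
        omega
      by_cases h : r w = n
      · refine ⟨by simpa [h] using hg w, fun d hdd => ?_⟩
        simpa [h, hd d hdd] using hg' w d hdd
      · have hlt : r w < n := by omega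
        refine ⟨by simpa [h] using (hφ w hlt).1, fun d hdd => ?_⟩
        simpa [h, hd d hdd] using (hφ w hlt).2 d hdd
  cases nonempty_fintype V
  obtain ⟨φ, hφ⟩ := key ((Finset.univ.sup r) + 1)
  exact ⟨φ, fun w => hφ w (Nat.lt_succ_of_le (Finset.le_sup (Finset.mem_univ w)))⟩

/-- **Graphs with a dominating edge are proper conflict-free (degree+2)-choosable.** -/
theorem result {V C : Type} [Fintype V] [DecidableEq V] (G : SimpleGraph V)
    [DecidableRel G.Adj] (a b : V) (hab : G.Adj a b) (hdom : ∀ w, G.Adj w a ∨ G.Adj w b)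
    (L : V → Finset C) (hL : ∀ v, G.degree v + 2 ≤ (L v).card) :
    ∃ φ : V → C, IsPCFListColouring G L φ := by
  classical
  have hne : a ≠ b := hab.ne
  obtain ⟨e⟩ : Nonempty (V ≃ Fin (Fintype.card V)) := ⟨Fintype.equivFin V⟩
  obtain ⟨r, hrdef⟩ : ∃ r : V → ℕ, r = fun v => if v = a then 0 else if v = b then 1
    else (e v : ℕ) + 2 := ⟨_, rfl⟩
  have ra : r a = 0 := by rw [hrdef]; simp
  have rb : r b = 1 := by rw [hrdef]; simp [hne.symm]
  have ro : ∀ v, v ≠ a → v ≠ b → r v = (e v : ℕ) + 2 := fun v h1 h2 => by
    rw [hrdef]; simp [h1, h2]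
  have hr : Function.Injective r := by
    intro x y h
    by_cases hxa : x = a
    · by_cases hya : y = a
      · rw [hxa, hya]
      · exfalso
        rw [hxa, ra] at h
        by_cases hyb : y = b
        · rw [hyb, rb] at h; omega
        · rw [ro y hya hyb] at h; omega
    · by_cases hxb : x = b
      · rw [hxb, rb] at h
        by_cases hya : y = a
        · exfalso; rw [hya, ra] at h; omega
        · by_cases hyb : y = b
          · rw [hxb, hyb]
          · exfalso; rw [ro y hya hyb] at h; omega
      · rw [ro x hxa hxb] at h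
        by_cases hya : y = a
        · exfalso; rw [hya, ra] at h; omega
        · by_cases hyb : y = b
          · exfalso; rw [hyb, rb] at h; omega
          · rw [ro y hya hyb] at h
            exact e.injective (Fin.ext (by omega))
  have htri : ∀ x y : V, x ≠ y → r x < r y ∨ r y < r x := fun x y h =>
    lt_or_gt_of_ne (fun h' => h (hr h'))
  let D : V → Finset V := fun w =>
    (insert a (insert b (G.neighborFinset w))).filter (fun d => r d < r w)
  have hD : ∀ w d, d ∈ D w ↔ (d = a ∨ d = b ∨ G.Adj w d) ∧ r d < r w := fun w d => by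
    simp [D]
  have hcard : ∀ w, (D w).card ≤ G.degree w + 1 := by
    intro w
    refine (Finset.card_filter_le _ _).trans ?_
    rw [← G.card_neighborFinset_eq_degree w]
    rcases hdom w with h | h
    · rw [Finset.insert_eq_of_mem (Finset.mem_insert_of_mem ((G.mem_neighborFinset w a).2 h))]
      exact Finset.card_insert_le _ _
    · rw [Finset.insert_eq_of_mem ((G.mem_neighborFinset w b).2 h)]
      exact Finset.card_insert_le _ _
  obtain ⟨φ, hφ⟩ := greedy r D L (fun w d hd => ((hD w d).1 hd).2) (fun w => by
    have h1 := hcard w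
    have h2 := hL w
    omega)
  have hproper : ∀ u v, G.Adj u v → φ u ≠ φ v := by
    intro u v huv
    rcases htri u v huv.ne with h | h
    · exact ((hφ v).2 u ((hD v u).2 ⟨Or.inr (Or.inr huv.symm), h⟩)).symm
    · exact (hφ u).2 v ((hD u v).2 ⟨Or.inr (Or.inr huv), h⟩)
  refine ⟨φ, fun v => (hφ v).1, hproper, ?_⟩
  intro x _
  rcases hdom x with hx | hx
  · refine ⟨φ a, a, ⟨hx, rfl⟩, ?_⟩
    rintro u ⟨_, hu⟩
    by_contra hua
    have hlt : r a < r u := by
      rcases htri a u (fun h => hua h.symm) with h | h
      · exact h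
      · rw [ra] at h; omega
    exact (hφ u).2 a ((hD u a).2 ⟨Or.inl rfl, hlt⟩) hu
  · refine ⟨φ b, b, ⟨hx, rfl⟩, ?_⟩
    rintro u ⟨_, hu⟩
    by_contra hub
    by_cases hua : u = a
    · exact hproper a b hab (by rw [← hua, hu])
    · have hlt : r b < r u := by rw [rb, ro u hua hub]; omega
      exact (hφ u).2 b ((hD u b).2 ⟨Or.inr (Or.inl rfl), hlt⟩) hu

end Pool.Agent.Results.MP_cab741_co.DominatingEdge
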