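import Mathlib

set_option autoImplicit false

/-!
# MP_cab741_co: strongly chordal graphs

Every finite graph with a strong perfect elimination ordering has a proper conflict-free
`L`-colouring for every list assignment `L` with `min (deg v + 2) (ω(G) + 1) ≤ |L v|`.
-/

namespace Pool.Agent.Results.MP_cab741_co.StronglyChordal

/-- `φ` is a proper conflict-free `L`-colouring of `G`: colours come from the lists, adjacent
vertices have different colours, and for every vertex `v` with at least one neighbour some colour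
is used by exactly one neighbour of `v`. -/
def IsPCFListColouring {V C : Type*} (G : SimpleGraph V) (L : V → Finset C) (φ : V → C) : Prop :=
  (∀ v, φ v ∈ L v) ∧ (∀ u v, G.Adj u v → φ u ≠ φ v) ∧
    ∀ v, (∃ u, G.Adj v u) → ∃ c, ∃! u, G.Adj v u ∧ φ u = c

/-- `σ` numbers the vertices along a strong perfect elimination ordering of `G`: the neighbours of
`a` that come later than `a` form a clique, and if `a < b < c < d` with `a` adjacent to `c` and `d`
and `b` adjacent to `c`, then `b` is adjacent to `d`. -/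
def IsStrongPerfectElimination {V : Type*} (G : SimpleGraph V) (σ : V → ℕ) : Prop :=
  Function.Injective σ ∧
    (∀ a c d, σ a < σ c → σ c < σ d → G.Adj a c → G.Adj a d → G.Adj c d) ∧
    ∀ a b c d, σ a < σ b → σ b < σ c → σ c < σ d → G.Adj a c → G.Adj a d → G.Adj b c → G.Adj b d

/-- A graph is strongly chordal if it has a strong perfect elimination ordering. -/
def IsStronglyChordal {V : Type*} (G : SimpleGraph V) : Prop :=
  ∃ σ : V → ℕ, IsStrongPerfectElimination G σ

/-- Greedy list colouring: if every vertex has to avoid the colours of fewer earlier vertices than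
its list has colours, there is a colouring. -/
theorem greedy {V C : Type*} [Finite V] (r : V → ℕ) (D : V → Finset V) (L : V → Finset C)
    (hD : ∀ w, ∀ d ∈ D w, r d < r w) (hL : ∀ w, (D w).card < (L w).card) :
    ∃ φ : V → C, ∀ w, φ w ∈ L w ∧ ∀ d ∈ D w, φ w ≠ φ d := by
  classical
  have key : ∀ n : ℕ, ∃ φ : V → C, ∀ w, r w < n → φ w ∈ L w ∧ ∀ d ∈ D w, φ w ≠ φ d := by
    intro n
    induction n with
    | zero =>
      refine ⟨fun w => (Finset.card_pos.1 (lt_of_le_of_lt (Nat.zero_le _) (hL w))).choose, ?_⟩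
      intro w hw
      exact absurd hw (Nat.not_lt_zero _)
    | succ n ih =>
      obtain ⟨φ, hφ⟩ := ih
      have hch : ∀ w, ∃ c, c ∈ L w ∧ ∀ d ∈ D w, c ≠ φ d := by
        intro w
        have h1 : ((D w).image φ).card < (L w).card :=
          lt_of_le_of_lt Finset.card_image_le (hL w)
        obtain ⟨c, hc, hc'⟩ := Finset.exists_mem_notMem_of_card_lt_card h1
        refine ⟨c, hc, fun d hd h => hc' ?_⟩
        rw [h]
        exact Finset.mem_image_of_mem φ hd
      choose g hg hg' using hch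
      refine ⟨fun w => if r w = n then g w else φ w, fun w hw => ?_⟩
      have hd : ∀ d ∈ D w, r d ≠ n := fun d hd => by
        have := hD w d hd
        omega
      by_cases h : r w = n
      · refine ⟨by simpa [h] using hg w, fun d hdd => ?_⟩
        simpa [h, hd d hdd] using hg' w d hdd
      · have hlt : r w < n := by omega
        refine ⟨by simpa [h] using (hφ w hlt).1, fun d hdd => ?_⟩
        simpa [h, hd d hdd] using (hφ w hlt).2 d hdd
  cases nonempty_fintype V
  obtain ⟨φ, hφ⟩ := key ((Finset.univ.sup r) + 1)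
  exact ⟨φ, fun w => hφ w (Nat.lt_succ_of_le (Finset.le_sup (Finset.mem_univ w)))⟩

/-- **Strongly chordal graphs are proper conflict-free (degree+2)-choosable.** Let `G` be a finite
strongly chordal graph and `L` a list assignment with
`min (deg v + 2) (ω(G) + 1) ≤ |L v|` for every vertex `v`. Then `G` has a proper conflict-free
`L`-colouring. -/
theorem result {V C : Type} [Fintype V] [DecidableEq V] (G : SimpleGraph V)
    [DecidableRel G.Adj] (hG : IsStronglyChordal G) (L : V → Finset C)
    (hL : ∀ v, min (G.degree v + 2) (G.cliqueNum + 1) ≤ (L v).card) :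
    ∃ φ : V → C, IsPCFListColouring G L φ := by
  classical
  obtain ⟨σ, hσ, h1, h2⟩ := hG
  -- later neighbours
  let Q : V → Finset V := fun w => Finset.univ.filter (fun q => G.Adj w q ∧ σ w < σ q)
  have hQ : ∀ w q, q ∈ Q w ↔ G.Adj w q ∧ σ w < σ q := fun w q => by simp [Q]
  have htri : ∀ a b : V, a ≠ b → σ a < σ b ∨ σ b < σ a := fun a b h =>
    lt_or_gt_of_ne (fun h' => h (hσ h'))
  have hQclq : ∀ w q q', q ∈ Q w → q' ∈ Q w → q ≠ q' → G.Adj q q' := by
    intro w q q' hq hq' hne
    rw [hQ] at hq hq'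
    rcases htri q q' hne with h | h
    · exact h1 w q q' hq.2 h hq.1 hq'.1
    · exact (h1 w q' q hq'.2 h hq'.1 hq.1).symm
  -- witnesses
  have hf : ∀ y, ∃ z, (∃ u, G.Adj y u) → G.Adj y z ∧
      ((Q y).Nonempty → z ∈ Q y ∧ ∀ w, σ w < σ y → G.Adj w y → (∃ a ∈ Q y, G.Adj a w) →
        G.Adj z w) ∧
      (¬ (Q y).Nonempty → ∀ u, G.Adj y u → u ≠ z → σ u < σ z) := by
    intro y
    by_cases hy : ∃ u, G.Adj y u
    swap
    · exact ⟨y, fun h => absurd h hy⟩
    by_cases hne : (Q y).Nonempty
    · let W : Finset V := Finset.univ.filter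
        (fun w => σ w < σ y ∧ G.Adj w y ∧ ∃ a ∈ Q y, G.Adj a w)
      have hW : ∀ w, w ∈ W ↔ σ w < σ y ∧ G.Adj w y ∧ ∃ a ∈ Q y, G.Adj a w := fun w => by
        simp [W]
      by_cases hWn : W.Nonempty
      · obtain ⟨w0, hw0, hmin⟩ := W.exists_min_image σ hWn
        obtain ⟨h3, h4, a, ha, haw⟩ := (hW w0).1 hw0
        refine ⟨a, fun _ => ⟨((hQ y a).1 ha).1, fun _ => ⟨ha, ?_⟩, fun h => absurd hne h⟩⟩
        intro w hw hwy hex
        by_cases hww : w = w0
        · rw [hww]; exact haw
        · have h5 : σ w0 ≤ σ w := hmin w ((hW w).2 ⟨hw, hwy, hex⟩)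
          have h6 : σ w0 < σ w := lt_of_le_of_ne h5 (fun h => hww (hσ h).symm)
          exact (h2 w0 w y a h6 hw ((hQ y a).1 ha).2 h4 haw.symm hwy).symm
      · obtain ⟨a, ha⟩ := hne
        refine ⟨a, fun _ => ⟨((hQ y a).1 ha).1, fun _ => ⟨ha, ?_⟩, fun h => absurd ⟨a, ha⟩ h⟩⟩
        intro w hw hwy hex
        exact absurd ⟨w, (hW w).2 ⟨hw, hwy, hex⟩⟩ hWn
    · let N : Finset V := Finset.univ.filter (fun u => G.Adj y u)
      have hN : ∀ u, u ∈ N ↔ G.Adj y u := fun u => by simp [N]
      obtain ⟨u0, hu0⟩ := hy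
      obtain ⟨z, hz, hmax⟩ := N.exists_max_image σ ⟨u0, (hN u0).2 hu0⟩
      refine ⟨z, fun _ => ⟨(hN z).1 hz, fun h => absurd h hne, fun _ u hu huz => ?_⟩⟩
      exact lt_of_le_of_ne (hmax u ((hN u).2 hu)) (fun h => huz (hσ h))
  choose f hf using hf
  -- constraints
  let D : V → Finset V := fun w => (Q w ∪ (Q w).image f).filter (fun d => σ w < σ d)
  have hD : ∀ w d, d ∈ D w ↔ (d ∈ Q w ∨ ∃ q ∈ Q w, f q = d) ∧ σ w < σ d := fun w d => by
    simp [D]
  have hcard : ∀ w, (D w).card ≤ (Q w).card + 1 := by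
    intro w
    by_cases hne : (Q w).Nonempty
    · obtain ⟨m, hm, hmax⟩ := (Q w).exists_max_image σ hne
      have hsub : D w ⊆ insert (f m) (Q w) := by
        intro d hd
        rw [hD] at hd
        rw [Finset.mem_insert]
        rcases hd.1 with h | ⟨q, hq, rfl⟩
        · exact Or.inr h
        · by_cases hqm : q = m
          · exact Or.inl (by rw [hqm])
          · right
            have hlt : σ q < σ m := lt_of_le_of_ne (hmax q hq) (fun h => hqm (hσ h))
            have hqm' : G.Adj q m := hQclq w q m hq hm hqm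
            have hmQ : m ∈ Q q := (hQ q m).2 ⟨hqm', hlt⟩
            have hq1 := (hQ w q).1 hq
            have hm1 := (hQ w m).1 hm
            have h7 := (hf q ⟨m, hqm'⟩).2.1 ⟨m, hmQ⟩
            have h8 := h7.2 w hq1.2 hq1.1 ⟨m, hmQ, hm1.1.symm⟩
            exact (hQ w (f q)).2 ⟨h8.symm, lt_trans hq1.2 ((hQ q (f q)).1 h7.1).2⟩
      exact (Finset.card_le_card hsub).trans (Finset.card_insert_le _ _)
    · have hem : Q w = ∅ := Finset.not_nonempty_iff_eq_empty.1 hne
      have : D w = ∅ := by
        rw [Finset.eq_empty_iff_forall_notMem]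
        intro d hd
        rw [hD] at hd
        rcases hd.1 with h | ⟨q, hq, _⟩
        · rw [hem] at h; simp at h
        · rw [hem] at hq; simp at hq
      rw [this]; simp
  have hQdeg : ∀ w, (Q w).card ≤ G.degree w := by
    intro w
    rw [← G.card_neighborFinset_eq_degree w]
    apply Finset.card_le_card
    intro q hq
    rw [SimpleGraph.mem_neighborFinset]
    exact ((hQ w q).1 hq).1
  have hQom : ∀ w, (Q w).card + 1 ≤ G.cliqueNum := by
    intro w
    have hw : w ∉ Q w := fun h => absurd ((hQ w w).1 h).2 (lt_irrefl _)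
    have hcl : G.IsClique (insert w (Q w) : Finset V) := by
      intro x hx y hy hxy
      rw [Finset.mem_coe, Finset.mem_insert] at hx hy
      rcases hx with rfl | hx
      · rcases hy with rfl | hy
        · exact absurd rfl hxy
        · exact ((hQ _ y).1 hy).1
      · rcases hy with rfl | hy
        · exact ((hQ _ x).1 hx).1.symm
        · exact hQclq w x y hx hy hxy
    have := hcl.card_le_cliqueNum
    rwa [Finset.card_insert_of_notMem hw] at this
  -- the colouring
  obtain ⟨N, hN⟩ : ∃ N, ∀ v, σ v ≤ N := ⟨Finset.univ.sup σ, fun v =>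
    Finset.le_sup (Finset.mem_univ v)⟩
  obtain ⟨φ, hφ⟩ := greedy (fun v => N - σ v) D L (fun w d hd => by
      have h3 := ((hD w d).1 hd).2
      have h4 := hN d
      show N - σ d < N - σ w
      omega) (fun w => by
      have h3 := hcard w
      have h4 := hQdeg w
      have h5 := hQom w
      have h6 := hL w
      omega)
  have hproper : ∀ u v, G.Adj u v → φ u ≠ φ v := by
    intro u v huv
    rcases htri u v huv.ne with h | h
    · exact (hφ u).2 v ((hD u v).2 ⟨Or.inl ((hQ u v).2 ⟨huv, h⟩), h⟩)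
    · exact ((hφ v).2 u ((hD v u).2 ⟨Or.inl ((hQ v u).2 ⟨huv.symm, h⟩), h⟩)).symm
  refine ⟨φ, fun v => (hφ v).1, hproper, ?_⟩
  intro x hx
  obtain ⟨hxz, hz1, hz2⟩ := hf x hx
  refine ⟨φ (f x), f x, ⟨hxz, rfl⟩, ?_⟩
  rintro u ⟨hxu, hu⟩
  by_contra hne
  by_cases hQx : (Q x).Nonempty
  · have hzQ := (hz1 hQx).1
    rcases htri u x hxu.ne.symm with h | h
    · -- `u` earlier in the elimination ordering, coloured after `x` and the witness
      have hxQ : x ∈ Q u := (hQ u x).2 ⟨hxu.symm, h⟩
      exact (hφ u).2 (f x) ((hD u (f x)).2 ⟨Or.inr ⟨x, hxQ, rfl⟩,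
        lt_trans h ((hQ x (f x)).1 hzQ).2⟩) hu
    · exact hproper u (f x) (hQclq x u (f x) ((hQ x u).2 ⟨hxu, h⟩) hzQ hne) hu
  · have hlt := hz2 hQx u hxu hne
    have h : σ u < σ x := by
      rcases htri u x hxu.ne.symm with h | h
      · exact h
      · exact absurd ⟨u, (hQ x u).2 ⟨hxu, h⟩⟩ hQx
    have hxQ : x ∈ Q u := (hQ u x).2 ⟨hxu.symm, h⟩
    exact (hφ u).2 (f x) ((hD u (f x)).2 ⟨Or.inr ⟨x, hxQ, rfl⟩, hlt⟩) hu

end Pool.Agent.Results.MP_cab741_co.StronglyChordal
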